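import Pool.Agent.W46.HM.Stm2

/-!
# Caps of the sphere and volume of tubes
-/

set_option autoImplicit false

open Finset MeasureTheory
open scoped Classical ENNReal Pointwise

namespace Pool.Agent.W131.HM
open Pool.Agent.W46.KK Pool.Agent.W46.HM

theorem vol_ball_pos (d : ℕ) :
    0 < (volume (Metric.ball (0 : EuclideanSpace ℝ (Fin (d + 1))) 1)).toReal :=
  ENNReal.toReal_pos (Metric.measure_ball_pos volume _ one_pos).ne' measure_ball_lt_top.ne

theorem vol_ball_eq (d : ℕ) : volume (Metric.ball (0 : EuclideanSpace ℝ (Fin (d + 1))) 1) =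
    ENNReal.ofReal (volume (Metric.ball (0 : EuclideanSpace ℝ (Fin (d + 1))) 1)).toReal :=
  (ENNReal.ofReal_toReal measure_ball_lt_top.ne).symm

theorem CAP : S_CAP := by
  intro d
  set V : ℝ := (volume (Metric.ball (0 : EuclideanSpace ℝ (Fin (d + 1))) 1)).toReal with hV
  have hV0 : 0 < V := vol_ball_pos d
  refine ⟨(d + 1) * (3 * 2 ^ (d + 1) * V), by positivity, ?_⟩
  intro e δ hδ hδ1
  rw [Measure.toSphere_apply' _ Metric.isClosed_closedBall.measurableSet,
    finrank_euclideanSpace_fin]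
  set m : ℕ := ⌈1 / δ⌉₊ with hm
  have he : ‖(e : EuclideanSpace ℝ (Fin (d + 1)))‖ = 1 := by simp
  have hsub : Set.Ioo (0 : ℝ) 1 • ((↑) '' (Metric.closedBall e δ) :
      Set (EuclideanSpace ℝ (Fin (d + 1)))) ⊆
      ⋃ j ∈ Finset.range (m + 1),
        Metric.closedBall (((j : ℝ) * δ) • (e : EuclideanSpace ℝ (Fin (d + 1)))) (2 * δ) := by
    rintro _ ⟨r, hr, _, ⟨x, hx, rfl⟩, rfl⟩
    have hr0 : 0 < r := hr.1
    have hr1 : r < 1 := hr.2
    have hx1 : ‖(x : EuclideanSpace ℝ (Fin (d + 1))) - e‖ ≤ δ := by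
      have h := Metric.mem_closedBall.1 hx
      rw [Subtype.dist_eq, dist_eq_norm] at h
      exact h
    have hrd : 0 ≤ r / δ := by positivity
    have h1 : (⌊r / δ⌋₊ : ℝ) ≤ r / δ := Nat.floor_le hrd
    have h2 : r / δ < ⌊r / δ⌋₊ + 1 := Nat.lt_floor_add_one _
    have h3 : (⌊r / δ⌋₊ : ℝ) * δ ≤ r := by
      rw [le_div_iff₀ hδ] at h1
      exact h1
    have h4 : r < (⌊r / δ⌋₊ : ℝ) * δ + δ := by
      rw [div_lt_iff₀ hδ] at h2
      linarith
    have h5 : ⌊r / δ⌋₊ ∈ Finset.range (m + 1) := by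
      rw [Finset.mem_range, Nat.lt_succ_iff]
      refine (Nat.floor_le_ceil _).trans (Nat.ceil_le_ceil ?_)
      exact div_le_div_of_nonneg_right hr1.le hδ.le
    refine Set.mem_iUnion₂.2 ⟨⌊r / δ⌋₊, h5, ?_⟩
    rw [Metric.mem_closedBall, dist_eq_norm]
    change ‖r • (x : EuclideanSpace ℝ (Fin (d + 1))) -
      ((⌊r / δ⌋₊ : ℝ) * δ) • (e : EuclideanSpace ℝ (Fin (d + 1)))‖ ≤ 2 * δ
    have h6 : r • (x : EuclideanSpace ℝ (Fin (d + 1))) -
        ((⌊r / δ⌋₊ : ℝ) * δ) • (e : EuclideanSpace ℝ (Fin (d + 1))) =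
        r • ((x : EuclideanSpace ℝ (Fin (d + 1))) - e) +
          (r - (⌊r / δ⌋₊ : ℝ) * δ) • (e : EuclideanSpace ℝ (Fin (d + 1))) := by
      rw [smul_sub, sub_smul]
      abel
    rw [h6]
    refine (norm_add_le _ _).trans ?_
    rw [norm_smul, norm_smul, he, Real.norm_eq_abs, Real.norm_eq_abs, abs_of_pos hr0,
      abs_of_nonneg (by linarith : (0 : ℝ) ≤ r - (⌊r / δ⌋₊ : ℝ) * δ)]
    have h7 : r * ‖(x : EuclideanSpace ℝ (Fin (d + 1))) - e‖ ≤ 1 * δ :=
      mul_le_mul hr1.le hx1 (norm_nonneg _) zero_le_one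
    linarith
  have hball : ∀ j : ℕ, volume (Metric.closedBall
      (((j : ℝ) * δ) • (e : EuclideanSpace ℝ (Fin (d + 1)))) (2 * δ)) =
      ENNReal.ofReal ((2 * δ) ^ (d + 1) * V) := by
    intro j
    rw [Measure.addHaar_closedBall _ _ (by positivity), finrank_euclideanSpace_fin,
      vol_ball_eq, ← ENNReal.ofReal_mul (by positivity)]
  have hmeas : volume (Set.Ioo (0 : ℝ) 1 • ((↑) '' (Metric.closedBall e δ) :
      Set (EuclideanSpace ℝ (Fin (d + 1))))) ≤
      ENNReal.ofReal (((m : ℝ) + 1) * ((2 * δ) ^ (d + 1) * V)) := by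
    refine (measure_mono hsub).trans ((measure_biUnion_finset_le _ _).trans ?_)
    rw [Finset.sum_congr rfl fun j _ => hball j, Finset.sum_const, Finset.card_range,
      nsmul_eq_mul, ← ENNReal.ofReal_natCast, ← ENNReal.ofReal_mul (by positivity)]
    push_cast
    exact le_rfl
  have hm1 : (m : ℝ) + 1 ≤ 3 / δ := by
    have h1 : (m : ℝ) < 1 / δ + 1 := Nat.ceil_lt_add_one (by positivity)
    have h2 : 1 ≤ 1 / δ := by rw [le_div_iff₀ hδ]; linarith
    have h3 : 3 / δ = 3 * (1 / δ) := by ring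
    rw [h3]
    linarith
  calc ((d + 1 : ℕ) : ℝ≥0∞) * volume (Set.Ioo (0 : ℝ) 1 • ((↑) '' (Metric.closedBall e δ) :
      Set (EuclideanSpace ℝ (Fin (d + 1)))))
      ≤ ENNReal.ofReal ((d + 1 : ℕ) : ℝ) *
        ENNReal.ofReal (((m : ℝ) + 1) * ((2 * δ) ^ (d + 1) * V)) := by
        rw [ENNReal.ofReal_natCast]
        exact mul_le_mul_right hmeas _
    _ = ENNReal.ofReal (((d + 1 : ℕ) : ℝ) * (((m : ℝ) + 1) * ((2 * δ) ^ (d + 1) * V))) :=
        (ENNReal.ofReal_mul (by positivity)).symm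
    _ ≤ ENNReal.ofReal ((d + 1) * (3 * 2 ^ (d + 1) * V) * δ ^ d) := by
        apply ENNReal.ofReal_le_ofReal
        push_cast
        have h1 : ((m : ℝ) + 1) * ((2 * δ) ^ (d + 1) * V) ≤ 3 / δ * ((2 * δ) ^ (d + 1) * V) :=
          mul_le_mul_of_nonneg_right hm1 (by positivity)
        have h2 : 3 / δ * ((2 * δ) ^ (d + 1) * V) = 3 * 2 ^ (d + 1) * V * δ ^ d := by
          rw [mul_pow, pow_succ δ d]
          field_simp
        rw [h2] at h1
        calc ((d : ℝ) + 1) * (((m : ℝ) + 1) * ((2 * δ) ^ (d + 1) * V))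
            ≤ ((d : ℝ) + 1) * (3 * 2 ^ (d + 1) * V * δ ^ d) :=
              mul_le_mul_of_nonneg_left h1 (by positivity)
          _ = (d + 1) * (3 * 2 ^ (d + 1) * V) * δ ^ d := by ring

theorem VOL : S_VOL := by
  intro d
  set V : ℝ := (volume (Metric.ball (0 : EuclideanSpace ℝ (Fin (d + 1))) 1)).toReal with hV
  have hV0 : 0 < V := vol_ball_pos d
  refine ⟨V / (2 * 4 ^ (d + 1)), by positivity, ?_⟩
  intro a e δ he hδ hδ1
  refine ⟨?_, ?_⟩
  · set N : ℕ := ⌊1 / δ⌋₊ with hN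
    set ρ : ℝ := δ / 4 with hρ
    have hρ0 : 0 < ρ := by positivity
    have hinv : 1 ≤ 1 / δ := by rw [le_div_iff₀ hδ]; linarith
    have hNle : (N : ℝ) * δ ≤ 1 := by
      have h := Nat.floor_le (by positivity : (0 : ℝ) ≤ 1 / δ)
      rw [le_div_iff₀ hδ] at h
      exact h
    have hN1 : 1 ≤ N := Nat.one_le_floor_iff _ |>.2 hinv
    have hNge : 1 / (2 * δ) ≤ N := by
      have h1 : 1 / δ < N + 1 := Nat.lt_floor_add_one _
      have h2 : (1 : ℝ) ≤ N := by exact_mod_cast hN1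
      have h3 : 1 / (2 * δ) = (1 / δ) / 2 := by field_simp
      rw [h3]
      linarith
    let s : ℕ → ℝ := fun j => -1 / 2 + ρ + 2 * ρ * j
    have hsub : (⋃ j ∈ Finset.range N, Metric.ball (a + s j • e) ρ) ⊆ tube δ a e := by
      intro y hy
      obtain ⟨j, hj, hy⟩ := Set.mem_iUnion₂.1 hy
      rw [Finset.mem_range] at hj
      have hj1 : (j : ℝ) + 1 ≤ N := by exact_mod_cast hj
      refine near_axis a e y he (s j) ρ ?_ (by rw [hρ]; linarith) ?_
      · have h1 : 0 ≤ (j : ℝ) := Nat.cast_nonneg _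
        have h2 : ρ * (j + 1) ≤ ρ * N := mul_le_mul_of_nonneg_left hj1 hρ0.le
        have h3 : ρ * N ≤ 1 / 4 := by
          rw [hρ]
          linarith
        have h4 : 0 ≤ ρ * (j : ℝ) := by positivity
        have h5 : |s j| ≤ 1 / 2 - ρ := by
          rw [abs_le]
          simp only [s]
          constructor <;> nlinarith
        linarith
      · rw [Metric.mem_ball, dist_eq_norm] at hy
        exact hy.le
    have hdisj : ((Finset.range N : Finset ℕ) : Set ℕ).PairwiseDisjoint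
        fun j => Metric.ball (a + s j • e) ρ := by
      intro i _ j _ hij
      apply Metric.ball_disjoint_ball
      rw [dist_eq_norm]
      have h1 : a + s i • e - (a + s j • e) = (s i - s j) • e := by
        rw [sub_smul]
        abel
      rw [h1, norm_smul, he, mul_one, Real.norm_eq_abs]
      have h2 : s i - s j = 2 * ρ * ((i : ℝ) - j) := by
        simp only [s]
        ring
      rw [h2, abs_mul, abs_of_pos (by positivity : (0 : ℝ) < 2 * ρ)]
      have h3 : (1 : ℝ) ≤ |(i : ℝ) - j| := by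
        have h4 : (1 : ℤ) ≤ |(i : ℤ) - j| := Int.one_le_abs (by omega)
        exact_mod_cast h4
      nlinarith
    have hball : ∀ j : ℕ, volume (Metric.ball (a + s j • e) ρ) =
        ENNReal.ofReal (ρ ^ (d + 1) * V) := by
      intro j
      rw [Measure.addHaar_ball _ _ hρ0.le, finrank_euclideanSpace_fin,
        vol_ball_eq, ← ENNReal.ofReal_mul (by positivity)]
    calc ENNReal.ofReal (V / (2 * 4 ^ (d + 1)) * δ ^ d)
        ≤ ENNReal.ofReal ((N : ℝ) * (ρ ^ (d + 1) * V)) := by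
          apply ENNReal.ofReal_le_ofReal
          have h1 : 1 / (2 * δ) * (ρ ^ (d + 1) * V) ≤ N * (ρ ^ (d + 1) * V) :=
            mul_le_mul_of_nonneg_right hNge (by positivity)
          have h2 : 1 / (2 * δ) * (ρ ^ (d + 1) * V) = V / (2 * 4 ^ (d + 1)) * δ ^ d := by
            rw [hρ, div_pow, pow_succ δ d]
            field_simp
          rw [← h2]
          exact h1
      _ = ∑ j ∈ Finset.range N, volume (Metric.ball (a + s j • e) ρ) := by
          rw [Finset.sum_congr rfl fun j _ => hball j, Finset.sum_const, Finset.card_range,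
            nsmul_eq_mul, ← ENNReal.ofReal_natCast, ← ENNReal.ofReal_mul (by positivity)]
      _ = volume (⋃ j ∈ Finset.range N, Metric.ball (a + s j • e) ρ) :=
          (measure_biUnion_finset hdisj fun j _ => measurableSet_ball).symm
      _ ≤ volume (tube δ a e) := measure_mono hsub
  · have hsub : tube δ a e ⊆ Metric.closedBall a 2 := by
      rintro y ⟨h1, h2⟩
      rw [Metric.mem_closedBall, dist_eq_norm]
      have h3 : y - a = ((y - a) - (inner ℝ (y - a) e : ℝ) • e) + (inner ℝ (y - a) e : ℝ) • e := by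
        abel
      rw [h3]
      refine (norm_add_le _ _).trans ?_
      have h4 : ‖(inner ℝ (y - a) e : ℝ) • e‖ ≤ 1 / 2 := by
        rw [norm_smul, he, mul_one, Real.norm_eq_abs]
        exact h1
      linarith
    exact ((measure_mono hsub).trans_lt measure_closedBall_lt_top).ne

end Pool.Agent.W131.HM
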